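import Pool.Agent.H47.TH.Img

/-!
# THEOREM H (MP_8f2e1c_an, think 1789): filling the holes of a bounded open set

`Ext W`: the union of the unbounded connected subsets of the complement of `W`; `fil W` its complement.
`UU W x`: the component of `x` in `fil W`, a window with boundary in the boundary of `W`.
-/

set_option autoImplicit false

namespace Pool.Agent.H47.TH

open Metric Set

/-- the unbounded component of the complement -/
def Ext (W : Set ℂ) : Set ℂ :=
  {z | ∃ C : Set ℂ, C ⊆ Wᶜ ∧ IsPreconnected C ∧ z ∈ C ∧ ¬ Bornology.IsBounded C}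

/-- the filled set -/
def fil (W : Set ℂ) : Set ℂ := (Ext W)ᶜ

/-- the component of `x` in the filled set -/
def UU (W : Set ℂ) (x : ℂ) : Set ℂ := connectedComponentIn (fil W) x

theorem ext_sub (W : Set ℂ) : Ext W ⊆ Wᶜ := by
  rintro z ⟨C, h1, -, h3, -⟩
  exact h1 h3

theorem sub_fil (W : Set ℂ) : W ⊆ fil W := by
  intro z hz h
  exact ext_sub W h hz

theorem ext_anti {W W' : Set ℂ} (h : W ⊆ W') : Ext W' ⊆ Ext W := by
  rintro z ⟨C, h1, h2, h3, h4⟩
  exact ⟨C, h1.trans (Set.compl_subset_compl.2 h), h2, h3, h4⟩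

theorem fil_mono {W W' : Set ℂ} (h : W ⊆ W') : fil W ⊆ fil W' :=
  Set.compl_subset_compl.2 (ext_anti h)

/-- the exterior of a disc is connected -/
theorem compl_ball_con (c : ℂ) {r : ℝ} (hr : 0 ≤ r) : IsConnected (ball c r)ᶜ := by
  have h : (ball c r)ᶜ = (fun p : ℂ × ℝ => c + (p.2 : ℂ) * (p.1 - c)) '' (sphere c 1 ×ˢ Ici r) := by
    ext z
    simp only [Set.mem_compl_iff, mem_ball, not_lt, Set.mem_image, Set.mem_prod, mem_sphere, Set.mem_Ici,
      Prod.exists]
    constructor
    · intro hz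
      by_cases hzc : z = c
      · subst hzc
        rw [dist_self] at hz
        refine ⟨z + 1, 0, ⟨by simp [dist_eq_norm], hz⟩, by simp⟩
      · have h0 : (0 : ℝ) < ‖z - c‖ := norm_pos_iff.2 (sub_ne_zero.2 hzc)
        have h0' : ((‖z - c‖ : ℝ) : ℂ) ≠ 0 := by exact_mod_cast h0.ne'
        refine ⟨c + (z - c) / (‖z - c‖ : ℝ), ‖z - c‖, ⟨?_, ?_⟩, ?_⟩
        · rw [dist_eq_norm, add_sub_cancel_left, norm_div, Complex.norm_real, norm_norm, div_self h0.ne']
        · rwa [dist_eq_norm] at hz
        · rw [add_sub_cancel_left, mul_div_cancel₀ _ h0']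
          ring
    · rintro ⟨u, t, ⟨hu, ht⟩, rfl⟩
      rw [dist_eq_norm, add_sub_cancel_left, norm_mul, Complex.norm_real, Real.norm_eq_abs]
      rw [dist_eq_norm] at hu
      rw [hu, mul_one]
      exact ht.trans (le_abs_self t)
  rw [h]
  refine IsConnected.image ((sphere_con c zero_le_one).prod isConnected_Ici) _ ?_
  exact (continuous_const.add ((Complex.continuous_ofReal.comp continuous_snd).mul
    (continuous_fst.sub continuous_const))).continuousOn

theorem compl_ball_unbdd (c : ℂ) (r : ℝ) : ¬ Bornology.IsBounded (ball c r)ᶜ := by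
  intro h
  have h2 : Bornology.IsBounded (Set.univ : Set ℂ) := by
    rw [← Set.union_compl_self (ball c r)]
    exact isBounded_ball.union h
  exact NoncompactSpace.noncompact_univ (X := ℂ) (isCompact_of_isClosed_isBounded isClosed_univ h2)

theorem compl_ball_sub_ext {W : Set ℂ} {c : ℂ} {r : ℝ} (hr : 0 ≤ r) (h : W ⊆ ball c r) :
    (ball c r)ᶜ ⊆ Ext W := fun _ hz =>
  ⟨(ball c r)ᶜ, Set.compl_subset_compl.2 h, (compl_ball_con c hr).isPreconnected, hz, compl_ball_unbdd c r⟩

theorem fil_sub_ball {W : Set ℂ} {c : ℂ} {r : ℝ} (hr : 0 ≤ r) (h : W ⊆ ball c r) : fil W ⊆ ball c r := by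
  rw [← Set.compl_subset_compl, fil, compl_compl]
  exact compl_ball_sub_ext hr h

theorem ext_con {W : Set ℂ} (hW : Bornology.IsBounded W) : IsConnected (Ext W) := by
  obtain ⟨r, hr⟩ := hW.subset_ball 0
  obtain ⟨M, hM⟩ : ∃ M, M = max r 0 := ⟨_, rfl⟩
  have hM0 : 0 ≤ M := by rw [hM]; exact le_max_right _ _
  have hWM : W ⊆ ball 0 M := hr.trans (ball_subset_ball (by rw [hM]; exact le_max_left _ _))
  have hsub := compl_ball_sub_ext hM0 hWM
  obtain ⟨p, hp⟩ := (compl_ball_con (0 : ℂ) hM0).nonempty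
  refine ⟨⟨p, hsub hp⟩, isPreconnected_of_forall p ?_⟩
  rintro y ⟨C, h1, h2, h3, h4⟩
  have h5 : (C ∩ (ball 0 M)ᶜ).Nonempty := by
    by_contra hne
    rw [Set.not_nonempty_iff_eq_empty] at hne
    apply h4
    refine (isBounded_ball (x := (0 : ℂ)) (r := M)).subset fun z hz => ?_
    by_contra hz2
    have : z ∈ C ∩ (ball 0 M)ᶜ := ⟨hz, hz2⟩
    rw [hne] at this
    exact this
  obtain ⟨q, hq1, hq2⟩ := h5
  refine ⟨C ∪ (ball 0 M)ᶜ, ?_, Or.inr hp, Or.inl h3,
    h2.union q hq1 hq2 (compl_ball_con 0 hM0).isPreconnected⟩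
  rintro z (hz | hz)
  · exact ⟨C, h1, h2, hz, h4⟩
  · exact hsub hz

theorem ext_unbdd {W : Set ℂ} (hW : Bornology.IsBounded W) : ¬ Bornology.IsBounded (Ext W) := by
  obtain ⟨z, C, h1, h2, h3, h4⟩ := (ext_con hW).nonempty
  intro h
  exact h4 (h.subset fun w hw => ⟨C, h1, h2, hw, h4⟩)

theorem ext_closed {W : Set ℂ} (hW : Bornology.IsBounded W) (ho : IsOpen W) : IsClosed (Ext W) := by
  apply isClosed_of_closure_subset
  intro z hz
  refine ⟨closure (Ext W), closure_minimal (ext_sub W) ho.isClosed_compl, (ext_con hW).isPreconnected.closure,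
    hz, fun h => ext_unbdd hW (h.subset subset_closure)⟩

theorem fil_open {W : Set ℂ} (hW : Bornology.IsBounded W) (ho : IsOpen W) : IsOpen (fil W) :=
  (ext_closed hW ho).isOpen_compl

theorem fil_bdd {W : Set ℂ} (hW : Bornology.IsBounded W) : Bornology.IsBounded (fil W) := by
  obtain ⟨r, hr⟩ := hW.subset_ball 0
  refine (isBounded_ball (x := (0 : ℂ)) (r := max r 0)).subset (fil_sub_ball (le_max_right _ _) ?_)
  exact hr.trans (ball_subset_ball (le_max_left _ _))

theorem fil_compl {W : Set ℂ} (hW : Bornology.IsBounded W) : IsConnected (fil W)ᶜ := by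
  rw [fil, compl_compl]
  exact ext_con hW

theorem fil_frontier {W : Set ℂ} (hW : Bornology.IsBounded W) (ho : IsOpen W) :
    frontier (fil W) ⊆ frontier W := by
  intro z hz
  rw [fil, frontier_compl, frontier, (ext_closed hW ho).closure_eq] at hz
  obtain ⟨hz1, hz2⟩ := hz
  rw [← frontier_compl, frontier, ho.isClosed_compl.closure_eq]
  refine ⟨ext_sub W hz1, fun hz3 => hz2 ?_⟩
  obtain ⟨ε, hε, hb⟩ := Metric.isOpen_iff.1 isOpen_interior z hz3
  rw [mem_interior]
  refine ⟨ball z ε, ?_, isOpen_ball, mem_ball_self hε⟩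
  intro w hw
  refine ⟨Ext W ∪ ball z ε, ?_, (ext_con hW).isPreconnected.union z hz1 (mem_ball_self hε)
    (convex_ball z ε).isPreconnected, Or.inr hw, fun h => ext_unbdd hW (h.subset Set.subset_union_left)⟩
  rintro v (hv | hv)
  · exact ext_sub W hv
  · exact interior_subset (hb hv)

/-- the boundary of a component of an open set -/
theorem comp_frontier {O : Set ℂ} (hO : IsOpen O) (x : ℂ) : frontier (connectedComponentIn O x) ⊆ frontier O := by
  intro w hw
  rw [frontier, hO.connectedComponentIn.interior_eq] at hw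
  rw [frontier, hO.interior_eq]
  refine ⟨closure_mono (connectedComponentIn_subset O x) hw.1, fun hwO => hw.2 ?_⟩
  obtain ⟨z, hz1, hz2⟩ := mem_closure_iff.1 hw.1 _ hO.connectedComponentIn (mem_connectedComponentIn hwO)
  rw [connectedComponentIn_eq hz2, ← connectedComponentIn_eq hz1]
  exact mem_connectedComponentIn hwO

/-- the boundary of a component of the intersection of two open sets -/
theorem inter_frontier {V U : Set ℂ} (hV : IsOpen V) (hU : IsOpen U) (x : ℂ) :
    frontier (connectedComponentIn (V ∩ U) x) ⊆ (frontier V ∩ closure U) ∪ (V ∩ frontier U) := by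
  intro w hw
  have h1 := comp_frontier (hV.inter hU) x hw
  rw [frontier, (hV.inter hU).interior_eq] at h1
  have h2 : w ∈ closure V := closure_mono Set.inter_subset_left h1.1
  have h3 : w ∈ closure U := closure_mono Set.inter_subset_right h1.1
  by_cases h4 : w ∈ V
  · right
    refine ⟨h4, ?_⟩
    rw [frontier, hU.interior_eq]
    exact ⟨h3, fun h5 => h1.2 ⟨h4, h5⟩⟩
  · left
    refine ⟨?_, h3⟩
    rw [frontier, hV.interior_eq]
    exact ⟨h2, h4⟩

theorem UU_win {W : Set ℂ} (hW : Bornology.IsBounded W) (ho : IsOpen W) {x : ℂ} (hx : x ∈ W) :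
    Win (UU W x) :=
  comp_compl (fil_open hW ho) (fil_bdd hW) (fil_compl hW) (sub_fil W hx)

theorem UU_mem {W : Set ℂ} {x : ℂ} (hx : x ∈ W) : x ∈ UU W x := mem_connectedComponentIn (sub_fil W hx)

theorem UU_frontier {W : Set ℂ} (hW : Bornology.IsBounded W) (ho : IsOpen W) (x : ℂ) :
    frontier (UU W x) ⊆ frontier W :=
  (comp_frontier (fil_open hW ho) x).trans (fil_frontier hW ho)

theorem UU_sub_ball {W : Set ℂ} {c : ℂ} {r : ℝ} (hr : 0 ≤ r) (h : W ⊆ ball c r) (x : ℂ) :
    UU W x ⊆ ball c r := (connectedComponentIn_subset _ _).trans (fil_sub_ball hr h)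

theorem UU_mono {W W' : Set ℂ} (h : W ⊆ W') (x : ℂ) : UU W x ⊆ UU W' x :=
  connectedComponentIn_mono x (fil_mono h)

/-- a ball in `W` around `x` -/
theorem UU_ball {W : Set ℂ} {x : ℂ} {r : ℝ} (hr : 0 < r) (h : ball x r ⊆ W) : ball x r ⊆ UU W x :=
  (convex_ball x r).isPreconnected.subset_connectedComponentIn (mem_ball_self hr) (h.trans (sub_fil W))

/-- thickening -/
theorem UU_thick {W W' : Set ℂ} (hW : Bornology.IsBounded W) (ho : IsOpen W) {ρ : ℝ}
    (h : ∀ z ∈ closure W, ball z ρ ⊆ W') {x u w : ℂ} (hu : u ∈ UU W x)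
    (hw : dist w u < ρ) : w ∈ UU W' x := by
  have hρ : 0 < ρ := dist_nonneg.trans_lt hw
  have hsub : W ⊆ W' := fun z hz => h z (subset_closure hz) (mem_ball_self hρ)
  by_cases hseg : segment ℝ u w ⊆ UU W x
  · exact UU_mono hsub x (hseg (right_mem_segment ℝ u w))
  · rw [Set.not_subset] at hseg
    obtain ⟨v, hv1, hv2⟩ := hseg
    have hop : IsOpen (UU W x) := (fil_open hW ho).connectedComponentIn
    obtain ⟨b, hb1, hb2⟩ := meet_frontier (convex_segment (𝕜 := ℝ) u w).isPreconnected hop
      ⟨u, left_mem_segment ℝ u w, hu⟩ ⟨v, hv1, hv2⟩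
    have hbW : b ∈ closure W := frontier_subset_closure (UU_frontier hW ho x hb2)
    have hball := h b hbW
    have hd : dist u w < ρ := by rwa [dist_comm]
    have hbu : u ∈ ball b ρ := by
      rw [mem_ball]
      have h1 : b ∈ closedBall u (dist u w) := by
        apply (convex_closedBall u (dist u w)).segment_subset (mem_closedBall_self dist_nonneg) _ hb1
        rw [mem_closedBall, dist_comm]
      rw [mem_closedBall, dist_comm] at h1
      linarith
    have hbw : w ∈ ball b ρ := by
      rw [mem_ball]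
      have h1 : b ∈ closedBall w (dist u w) := by
        apply (convex_closedBall w (dist u w)).segment_subset _ (mem_closedBall_self dist_nonneg) hb1
        rw [mem_closedBall]
      rw [mem_closedBall, dist_comm] at h1
      linarith
    have hu' : u ∈ UU W' x := UU_mono hsub x hu
    have h1 : ball b ρ ⊆ connectedComponentIn (fil W') u :=
      (convex_ball b ρ).isPreconnected.subset_connectedComponentIn hbu (hball.trans (sub_fil W'))
    have h2 : UU W' x = connectedComponentIn (fil W') u := connectedComponentIn_eq hu'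
    rw [h2]
    exact h1 hbw

end Pool.Agent.H47.TH
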