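import Pool.Agent.H56.TH.Defs
import Pool.Agent.H47.TH.Fil

/-!
# THEOREM H (MP_8f2e1c_an, think 1789): `Full` and `Wn` under univalent maps

`full_image`: `Full V`, `V ⊆ ball c R`, `g` holomorphic and injective on `ball c R'`, `R < R'`: `Full (g '' V)`.
`image_open`: images of open sets are open. `frontier_image`: `frontier (g '' V) = g '' frontier V`.
`wn_image`: windows.
-/

set_option autoImplicit false

namespace Pool.Agent.H47.TH

open Metric Set Pool.Agent.H56.TH

theorem win_ball (c : ℂ) {R : ℝ} (hR : 0 < R) : Win (ball c R) :=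
  ⟨isOpen_ball, isBounded_ball, ⟨⟨c, mem_ball_self hR⟩, (convex_ball c R).isPreconnected⟩,
    compl_ball_con c hR.le⟩

/-- injective holomorphic maps are open -/
theorem image_open {c : ℂ} {R' : ℝ} {g : ℂ → ℂ} (hg : DifferentiableOn ℂ g (ball c R'))
    (hinj : InjOn g (ball c R')) {s : Set ℂ} (hs : s ⊆ ball c R') (ho : IsOpen s) : IsOpen (g '' s) := by
  rcases le_or_gt R' 0 with h0 | h0
  · rw [ball_eq_empty.2 h0, Set.subset_empty_iff] at hs
    rw [hs, Set.image_empty]
    exact isOpen_empty
  have han : AnalyticOnNhd ℂ g (ball c R') := hg.analyticOnNhd isOpen_ball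
  rcases han.is_constant_or_isOpen (convex_ball c R').isPreconnected with h | h
  · exfalso
    obtain ⟨w, hw⟩ := h
    have h0' : c ∈ ball c R' := mem_ball_self h0
    have h1 : c + ((R' / 2 : ℝ) : ℂ) ∈ ball c R' := by
      rw [mem_ball, dist_eq_norm, add_sub_cancel_left, Complex.norm_real, Real.norm_eq_abs,
        abs_of_pos (by linarith)]
      linarith
    have h2 := hinj h0' h1 ((hw _ h0').trans (hw _ h1).symm)
    have h3 : ((R' / 2 : ℝ) : ℂ) = 0 := by
      have := h2.symm
      rwa [add_eq_left] at this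
    have h4 : R' / 2 = 0 := by exact_mod_cast h3
    linarith
  · exact h s hs ho

theorem full_image {V : Set ℂ} (hV : Full V) {c : ℂ} {R R' : ℝ} (hRR : R < R') (hVc : V ⊆ ball c R)
    {g : ℂ → ℂ} (hg : DifferentiableOn ℂ g (ball c R')) (hinj : InjOn g (ball c R')) : Full (g '' V) := by
  intro O hO hb hf
  rcases le_or_gt R 0 with hR | hR
  · rw [ball_eq_empty.2 hR, Set.subset_empty_iff] at hVc
    subst hVc
    rw [Set.image_empty] at hf ⊢
    exact hV O hO hb hf
  have hW : Win (g '' ball c R) := (win_ball c hR).image hR hRR subset_rfl hg hinj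
  have h1 : O ⊆ g '' ball c R := hW.full hO hb (hf.trans (Set.image_mono hVc))
  have hsub : ball c R ⊆ ball c R' := ball_subset_ball hRR.le
  have hsub' : closedBall c R ⊆ ball c R' := closedBall_subset_ball hRR
  -- the preimage
  obtain ⟨O', hO'⟩ : ∃ O', O' = ball c R ∩ g ⁻¹' O := ⟨_, rfl⟩
  have h2 : IsOpen O' := by
    rw [hO']
    exact (hg.continuousOn.mono hsub).isOpen_inter_preimage isOpen_ball hO
  have h3 : frontier O' ⊆ V := by
    intro w hw
    rw [frontier, h2.interior_eq] at hw
    obtain ⟨hw1, hw2⟩ := hw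
    have hwc : w ∈ closedBall c R :=
      closure_ball_subset_closedBall (closure_mono (by rw [hO']; exact Set.inter_subset_left) hw1)
    have hwR : w ∈ ball c R' := hsub' hwc
    have hgw : g w ∈ closure O := by
      have h4 : ContinuousWithinAt g O' w := by
        have := (hg.continuousOn w hwR).continuousAt (isOpen_ball.mem_nhds hwR)
        exact this.continuousWithinAt
      have h5 := h4.mem_closure_image hw1
      refine closure_mono ?_ h5
      rintro _ ⟨y, hy, rfl⟩
      rw [hO'] at hy
      exact hy.2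
    have hgw2 : g w ∉ O := by
      intro hgO
      obtain ⟨y, hy1, hy2⟩ := h1 hgO
      have h6 : y = w := hinj (hsub hy1) hwR hy2
      subst h6
      apply hw2
      rw [hO']
      exact ⟨hy1, hgO⟩
    have h7 : g w ∈ frontier O := by
      rw [frontier, hO.interior_eq]
      exact ⟨hgw, hgw2⟩
    obtain ⟨y, hy1, hy2⟩ := hf h7
    have h8 : y = w := hinj (hsub (hVc hy1)) hwR hy2
    rwa [← h8]
  have h4 : O' ⊆ V := by
    refine hV O' h2 ((isBounded_ball (x := c) (r := R)).subset ?_) h3
    rw [hO']
    exact Set.inter_subset_left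
  intro w hw
  obtain ⟨y, hy1, rfl⟩ := h1 hw
  refine Set.mem_image_of_mem g (h4 ?_)
  rw [hO']
  exact ⟨hy1, hw⟩

theorem frontier_image {V : Set ℂ} (hV : IsOpen V) {c : ℂ} {R R' : ℝ} (hRR : R < R') (hVc : V ⊆ ball c R)
    {g : ℂ → ℂ} (hg : DifferentiableOn ℂ g (ball c R')) (hinj : InjOn g (ball c R')) :
    frontier (g '' V) = g '' frontier V := by
  have hsub' : closedBall c R ⊆ ball c R' := closedBall_subset_ball hRR
  have hcl : closure V ⊆ closedBall c R := (closure_mono hVc).trans closure_ball_subset_closedBall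
  have hcpt : IsCompact (closure V) := by
    refine isCompact_of_isClosed_isBounded isClosed_closure ?_
    exact (isBounded_closedBall (x := c) (r := R)).subset hcl
  have hVR : V ⊆ ball c R' := subset_closure.trans (hcl.trans hsub')
  have h1 : closure (g '' V) = g '' closure V := by
    apply Set.Subset.antisymm
    · refine closure_minimal (Set.image_mono subset_closure) ?_
      exact (hcpt.image_of_continuousOn (hg.continuousOn.mono (hcl.trans hsub'))).isClosed
    · rintro _ ⟨y, hy, rfl⟩
      have h2 : ContinuousWithinAt g V y := by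
        have hyR : y ∈ ball c R' := hsub' (hcl hy)
        exact ((hg.continuousOn y hyR).continuousAt (isOpen_ball.mem_nhds hyR)).continuousWithinAt
      exact h2.mem_closure_image hy
  rw [frontier, frontier, h1, (image_open hg hinj hVR hV).interior_eq, hV.interior_eq]
  ext w
  constructor
  · rintro ⟨⟨y, hy, rfl⟩, hw⟩
    exact ⟨y, ⟨hy, fun h => hw (Set.mem_image_of_mem g h)⟩, rfl⟩
  · rintro ⟨y, ⟨hy1, hy2⟩, rfl⟩
    refine ⟨Set.mem_image_of_mem g hy1, ?_⟩
    rintro ⟨x, hx, hxy⟩
    have h2 : x = y := hinj (hVR hx) (hsub' (hcl hy1)) hxy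
    rw [h2] at hx
    exact hy2 hx

/-- the image of a window -/
theorem wn_image {P V : Set ℂ} (hV : Wn P V) {c : ℂ} {R R' : ℝ} (hRR : R < R') (hVc : V ⊆ ball c R)
    {g : ℂ → ℂ} (hg : DifferentiableOn ℂ g (ball c R')) (hinj : InjOn g (ball c R'))
    (hP : ∀ u ∈ ball c R', g u ∈ P → u ∈ P) : Wn P (g '' V) := by
  have hsub' : closedBall c R ⊆ ball c R' := closedBall_subset_ball hRR
  have hcl : closure V ⊆ closedBall c R := (closure_mono hVc).trans closure_ball_subset_closedBall
  refine ⟨image_open hg hinj (hVc.trans (ball_subset_ball hRR.le)) hV.op,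
    hV.co.image g (hg.continuousOn.mono (hVc.trans (ball_subset_ball hRR.le))),
    full_image hV.fu hRR hVc hg hinj, ?_⟩
  rw [frontier_image hV.op hRR hVc hg hinj, Set.disjoint_left]
  rintro _ ⟨y, hy, rfl⟩ hyP
  exact Set.disjoint_left.1 hV.fr hy (hP y (hsub' (hcl (frontier_subset_closure hy))) hyP)

end Pool.Agent.H47.TH
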