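import Pool.Agent.H47.TH.Win

/-!
# THEOREM H (MP_8f2e1c_an, think 1789): the image of a window under a univalent map is a window

`Win.image`: `g` holomorphic and injective on `ball c R'`, `V` a window in `ball c R`, `R < R'`: `g '' V` is a window.
`Win.full`: no holes.
-/

set_option autoImplicit false

namespace Pool.Agent.H47.TH

open Metric Set

/-- an open set whose boundary is contained in a connected set -/
theorem union_con {O A : Set ℂ} (hO : IsOpen O) (hne : O ≠ Set.univ) (hA : IsConnected A)
    (h : frontier O ⊆ A) : IsConnected (A ∪ O) := by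
  obtain ⟨p, hp⟩ := hA.nonempty
  refine ⟨⟨p, Or.inl hp⟩, isPreconnected_of_forall p ?_⟩
  rintro y (hy | hy)
  · exact ⟨A, Set.subset_union_left, hp, hy, hA.isPreconnected⟩
  · have hop : IsOpen (connectedComponentIn O y) := hO.connectedComponentIn
    obtain ⟨q, hq⟩ := (Set.ne_univ_iff_exists_notMem O).1 hne
    obtain ⟨w, -, hw⟩ := meet_frontier (A := Set.univ) isPreconnected_univ hop
      ⟨y, trivial, mem_connectedComponentIn hy⟩ ⟨q, trivial, fun h => hq (connectedComponentIn_subset O y h)⟩
    rw [frontier, hop.interior_eq] at hw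
    have hwO : w ∉ O := by
      intro hwO
      apply hw.2
      obtain ⟨z, hz1, hz2⟩ := mem_closure_iff.1 hw.1 _ hO.connectedComponentIn (mem_connectedComponentIn hwO)
      rw [connectedComponentIn_eq hz2, ← connectedComponentIn_eq hz1]
      exact mem_connectedComponentIn hwO
    have hwA : w ∈ A := by
      apply h
      rw [frontier, hO.interior_eq]
      exact ⟨closure_mono (connectedComponentIn_subset O y) hw.1, hwO⟩
    have h1 : IsPreconnected (insert w (connectedComponentIn O y)) :=
      isPreconnected_connectedComponentIn.subset_closure (Set.subset_insert _ _)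
        (Set.insert_subset hw.1 subset_closure)
    have h2 := IsPreconnected.union w (Set.mem_insert _ _) hwA h1 hA.isPreconnected
    refine ⟨insert w (connectedComponentIn O y) ∪ A, ?_, Or.inr hp,
      Or.inl (Set.mem_insert_of_mem _ (mem_connectedComponentIn hy)), h2⟩
    rintro z ((rfl | hz) | hz)
    · exact Or.inl hwA
    · exact Or.inr (connectedComponentIn_subset O y hz)
    · exact Or.inl hz

/-- a bounded open set with boundary in a window is contained in it -/
theorem Win.full {V O : Set ℂ} (hV : Win V) (hO : IsOpen O) (hb : Bornology.IsBounded O)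
    (h : frontier O ⊆ V) : O ⊆ V := by
  intro z hz
  by_contra hzV
  have h1 : (Vᶜ ∩ Oᶜ).Nonempty := by
    rw [← Set.compl_union]
    by_contra hne
    rw [Set.not_nonempty_iff_eq_empty, Set.compl_empty_iff] at hne
    have h2 := hV.bdd.union hb
    rw [hne] at h2
    exact NoncompactSpace.noncompact_univ (X := ℂ) (isCompact_of_isClosed_isBounded isClosed_univ h2)
  obtain ⟨w, hw1, hw2⟩ := meet_frontier hV.com.isPreconnected hO ⟨z, hzV, hz⟩ h1
  exact hw1 (h hw2)

/-- the radial retraction onto a closed disc -/
private noncomputable def ret (c : ℂ) (R : ℝ) (z : ℂ) : ℂ := c + ((R / max R ‖z - c‖ : ℝ) : ℂ) * (z - c)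

private theorem ret_cont (c : ℂ) {R : ℝ} (hR : 0 < R) : Continuous (ret c R) := by
  unfold ret
  refine continuous_const.add (Continuous.mul ?_ (continuous_id.sub continuous_const))
  refine Complex.continuous_ofReal.comp (Continuous.div continuous_const ?_ ?_)
  · exact continuous_const.max ((continuous_id.sub continuous_const).norm)
  · intro z
    exact (lt_of_lt_of_le hR (le_max_left _ _)).ne'

private theorem ret_in (c : ℂ) {R : ℝ} (hR : 0 < R) {z : ℂ} (hz : z ∈ closedBall c R) : ret c R z = z := by
  have h1 : ‖z - c‖ ≤ R := by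
    rw [← dist_eq_norm]
    exact hz
  unfold ret
  rw [max_eq_left h1, div_self hR.ne']
  push_cast
  ring

private theorem ret_out (c : ℂ) {R : ℝ} (hR : 0 < R) {z : ℂ} (hz : z ∉ closedBall c R) :
    ret c R z ∈ sphere c R := by
  have h1 : R < ‖z - c‖ := by
    rw [← dist_eq_norm]
    exact not_le.1 hz
  have h2 : 0 < ‖z - c‖ := hR.trans h1
  unfold ret
  rw [mem_sphere, dist_eq_norm, add_sub_cancel_left, norm_mul, Complex.norm_real, max_eq_right h1.le,
    Real.norm_eq_abs, abs_of_pos (div_pos hR h2), div_mul_cancel₀ _ h2.ne']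

/-- the image of a window under a univalent map -/
theorem Win.image {V : Set ℂ} (hV : Win V) {c : ℂ} {R R' : ℝ} (hR : 0 < R) (hRR : R < R')
    (hVc : V ⊆ ball c R) {g : ℂ → ℂ} (hg : DifferentiableOn ℂ g (ball c R'))
    (hinj : InjOn g (ball c R')) : Win (g '' V) := by
  have hsub : closedBall c R ⊆ ball c R' := closedBall_subset_ball hRR
  have hsub' : ball c R ⊆ ball c R' := ball_subset_ball hRR.le
  have hgc : ContinuousOn g (closedBall c R) := hg.continuousOn.mono hsub
  have han : AnalyticOnNhd ℂ g (ball c R') := hg.analyticOnNhd isOpen_ball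
  have hopen : ∀ s ⊆ ball c R', IsOpen s → IsOpen (g '' s) := by
    rcases han.is_constant_or_isOpen (convex_ball c R').isPreconnected with h | h
    · exfalso
      obtain ⟨w, hw⟩ := h
      have h0 : c ∈ ball c R' := mem_ball_self (hR.trans hRR)
      have h1 : c + ((R / 2 : ℝ) : ℂ) ∈ ball c R' := by
        rw [mem_ball, dist_eq_norm, add_sub_cancel_left, Complex.norm_real, Real.norm_eq_abs,
          abs_of_pos (by linarith)]
        linarith
      have h2 := hinj h0 h1 ((hw _ h0).trans (hw _ h1).symm)
      have h3 : ((R / 2 : ℝ) : ℂ) = 0 := by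
        have := h2.symm
        rwa [add_eq_left] at this
      have h4 : R / 2 = 0 := by exact_mod_cast h3
      linarith
    · exact h
  have hcpt : IsCompact (g '' closedBall c R) := (isCompact_closedBall c R).image_of_continuousOn hgc
  have hVsub : V ⊆ closedBall c R := hVc.trans ball_subset_closedBall
  refine ⟨hopen V (hVc.trans hsub') hV.op, hcpt.isBounded.subset (Set.image_mono hVsub),
    hV.con.image g (hgc.mono hVsub), ?_⟩
  -- the closed disc without `V`
  have h1 : ret c R '' Vᶜ = closedBall c R \ V := by
    ext z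
    constructor
    · rintro ⟨y, hy, rfl⟩
      by_cases hyc : y ∈ closedBall c R
      · rw [ret_in c hR hyc]
        exact ⟨hyc, hy⟩
      · have h2 := ret_out c hR hyc
        refine ⟨sphere_subset_closedBall h2, fun h3 => ?_⟩
        have h4 := hVc h3
        rw [mem_ball] at h4
        rw [mem_sphere] at h2
        linarith
    · rintro ⟨hz1, hz2⟩
      exact ⟨z, hz2, ret_in c hR hz1⟩
  have h2 : IsConnected (closedBall c R \ V) := by
    rw [← h1]
    exact hV.com.image _ (ret_cont c hR).continuousOn
  have h3 : IsConnected (g '' (closedBall c R \ V)) := h2.image g (hgc.mono Set.diff_subset)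
  have hO : IsOpen (g '' closedBall c R)ᶜ := hcpt.isClosed.isOpen_compl
  have h4 : (g '' V)ᶜ = g '' (closedBall c R \ V) ∪ (g '' closedBall c R)ᶜ := by
    rw [(hinj.mono hsub).image_diff_subset hVsub]
    ext z
    simp only [Set.mem_compl_iff, Set.mem_union, Set.mem_diff]
    constructor
    · intro hz
      by_cases hz1 : z ∈ g '' closedBall c R
      · exact Or.inl ⟨hz1, hz⟩
      · exact Or.inr hz1
    · rintro (hz | hz)
      · exact hz.2
      · exact fun h => hz (Set.image_mono hVsub h)
  rw [h4]
  apply union_con hO _ h3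
  · rw [frontier_compl]
    intro w hw
    rw [frontier, hcpt.isClosed.closure_eq] at hw
    obtain ⟨⟨z, hz, rfl⟩, hw2⟩ := hw
    refine ⟨z, ⟨hz, fun hzV => hw2 ?_⟩, rfl⟩
    exact interior_maximal (Set.image_mono ball_subset_closedBall) (hopen _ hsub' isOpen_ball)
      (Set.mem_image_of_mem g (hVc hzV))
  · intro h
    have h5 : g c ∈ (g '' closedBall c R)ᶜ := by rw [h]; trivial
    exact h5 (Set.mem_image_of_mem g (mem_closedBall_self hR.le))

end Pool.Agent.H47.TH
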