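import Mathlib

/-!
# THEOREM H (MP_8f2e1c_an, think 1789): windows, plane topology

`Win V`: `V` is open, bounded, connected, the complement is connected.
-/

set_option autoImplicit false

namespace Pool.Agent.H47.TH

open Metric Set

/-- A window: a bounded domain with connected complement. -/
structure Win (V : Set ℂ) : Prop where
  op : IsOpen V
  bdd : Bornology.IsBounded V
  con : IsConnected V
  com : IsConnected Vᶜ

theorem sphere_con (b : ℂ) {r : ℝ} (hr : 0 ≤ r) : IsConnected (sphere b r) := by
  apply isConnected_sphere _ b hr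
  rw [Complex.rank_real_complex]
  exact_mod_cast one_lt_two

/-- a connected set which meets the disc and the complement of the closed disc meets the circle -/
theorem meet_sphere {A : Set ℂ} (hA : IsPreconnected A) {b : ℂ} {r : ℝ} (h1 : (A ∩ ball b r).Nonempty)
    (h2 : (A ∩ (closedBall b r)ᶜ).Nonempty) : (A ∩ sphere b r).Nonempty := by
  by_contra hne
  rw [Set.not_nonempty_iff_eq_empty] at hne
  have hsub : A ⊆ ball b r ∪ (closedBall b r)ᶜ := by
    intro z hz
    by_cases hz1 : dist z b < r
    · exact Or.inl hz1
    · right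
      intro hz2
      have h3 : z ∈ sphere b r := le_antisymm hz2 (not_lt.1 hz1)
      have : z ∈ A ∩ sphere b r := ⟨hz, h3⟩
      rw [hne] at this
      exact this
  obtain ⟨z, -, hz1, hz2⟩ := hA (ball b r) (closedBall b r)ᶜ isOpen_ball isClosed_closedBall.isOpen_compl hsub h1 h2
  exact hz2 (ball_subset_closedBall hz1)

/-- a preconnected set which meets an open set and the complement of it meets the boundary -/
theorem meet_frontier {A V : Set ℂ} (hA : IsPreconnected A) (hV : IsOpen V) (h1 : (A ∩ V).Nonempty)
    (h2 : (A ∩ Vᶜ).Nonempty) : (A ∩ frontier V).Nonempty := by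
  by_contra hne
  rw [Set.not_nonempty_iff_eq_empty] at hne
  have hfr : ∀ z ∈ A, z ∉ frontier V := by
    intro z hz hz1
    have : z ∈ A ∩ frontier V := ⟨hz, hz1⟩
    rw [hne] at this
    exact this
  have hcl : ∀ z ∈ A, z ∉ V → z ∈ (closure V)ᶜ := by
    intro z hz hz1 hz2
    apply hfr z hz
    rw [frontier, hV.interior_eq]
    exact ⟨hz2, hz1⟩
  obtain ⟨z, -, hz1, hz2⟩ := hA V (closure V)ᶜ hV isClosed_closure.isOpen_compl (by
    intro z hz
    by_cases hz1 : z ∈ V
    · exact Or.inl hz1
    · exact Or.inr (hcl z hz hz1)) h1 (by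
    obtain ⟨z, hz, hz1⟩ := h2
    exact ⟨z, hz, hcl z hz hz1⟩)
  exact hz2 (subset_closure hz1)

/-- a bounded set has a point outside in the complement of every closed disc -/
theorem exists_far {V : Set ℂ} (hV : Bornology.IsBounded V) (b : ℂ) (r : ℝ) :
    (Vᶜ ∩ (closedBall b r)ᶜ).Nonempty := by
  have h : Bornology.IsBounded (V ∪ closedBall b r) := hV.union isBounded_closedBall
  rw [← Set.compl_union]
  by_contra hne
  rw [Set.not_nonempty_iff_eq_empty, Set.compl_empty_iff] at hne
  rw [hne] at h
  exact NoncompactSpace.noncompact_univ (X := ℂ) (isCompact_of_isClosed_isBounded isClosed_univ h)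

/-- circles around a point which is not in a window but in its closure -/
theorem Win.sphere_meets {V : Set ℂ} (hV : Win V) {b : ℂ} (hb : b ∈ frontier V) {r : ℝ} (hr : 0 < r)
    (h : ¬ V ⊆ closedBall b r) : (sphere b r ∩ frontier V).Nonempty := by
  rw [frontier, hV.op.interior_eq] at hb
  obtain ⟨hb1, hb2⟩ := hb
  have h1 : (V ∩ sphere b r).Nonempty := by
    apply meet_sphere hV.con.isPreconnected
    · obtain ⟨z, hz1, hz2⟩ := Metric.mem_closure_iff.1 hb1 r hr
      exact ⟨z, hz1, by rw [mem_ball, dist_comm]; exact hz2⟩
    · rw [Set.not_subset] at h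
      obtain ⟨z, hz1, hz2⟩ := h
      exact ⟨z, hz1, hz2⟩
  have h2 : (Vᶜ ∩ sphere b r).Nonempty := by
    apply meet_sphere hV.com.isPreconnected
    · exact ⟨b, hb2, mem_ball_self hr⟩
    · exact exists_far hV.bdd b r
  apply meet_frontier (sphere_con b hr.le).isPreconnected hV.op
  · rw [Set.inter_comm]
    exact h1
  · rw [Set.inter_comm]
    exact h2

/-- a window which is not contained in a window `U` has boundary points outside `U` -/
theorem Win.frontier_not_subset {V U : Set ℂ} (hV : Win V) (hU : Win U) (h : ¬ V ⊆ U) :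
    ∃ w ∈ frontier V, w ∉ U := by
  rw [Set.not_subset] at h
  obtain ⟨v, hv, hvU⟩ := h
  obtain ⟨w, hw1, hw2⟩ := meet_frontier hU.com.isPreconnected hV.op ⟨v, hvU, hv⟩ (by
    have h1 : (Vᶜ ∩ Uᶜ).Nonempty := by
      rw [← Set.compl_union]
      by_contra hne
      rw [Set.not_nonempty_iff_eq_empty, Set.compl_empty_iff] at hne
      have h2 := hV.bdd.union hU.bdd
      rw [hne] at h2
      exact NoncompactSpace.noncompact_univ (X := ℂ) (isCompact_of_isClosed_isBounded isClosed_univ h2)
    obtain ⟨z, hz1, hz2⟩ := h1
    exact ⟨z, hz2, hz1⟩)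
  exact ⟨w, hw2, hw1⟩

/-- the component of a point of an open set with connected complement: the complement is connected -/
theorem comp_compl {O : Set ℂ} (hO : IsOpen O) (hb : Bornology.IsBounded O) (hc : IsConnected Oᶜ) {x : ℂ}
    (hx : x ∈ O) : Win (connectedComponentIn O x) := by
  refine ⟨hO.connectedComponentIn, hb.subset (connectedComponentIn_subset O x),
    isConnected_connectedComponentIn_iff.2 hx, ?_⟩
  have h0 : Oᶜ ⊆ (connectedComponentIn O x)ᶜ := Set.compl_subset_compl.2 (connectedComponentIn_subset O x)
  obtain ⟨p, hp⟩ := hc.nonempty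
  refine ⟨⟨p, h0 hp⟩, isPreconnected_of_forall p ?_⟩
  intro y hy
  by_cases hyO : y ∈ O
  · refine ⟨connectedComponentIn O y ∪ Oᶜ, ?_, Or.inr hp, Or.inl (mem_connectedComponentIn hyO), ?_⟩
    · rintro z (hz | hz)
      · intro hz2
        apply hy
        rw [connectedComponentIn_eq hz2, ← connectedComponentIn_eq hz]
        exact mem_connectedComponentIn hyO
      · exact h0 hz
    · -- the closure of the component meets the complement of O
      have hop : IsOpen (connectedComponentIn O y) := hO.connectedComponentIn
      have hne : (frontier (connectedComponentIn O y)).Nonempty := by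
        obtain ⟨w, hw⟩ := exists_far (hb.subset (connectedComponentIn_subset O y)) 0 0
        have := meet_frontier (A := Set.univ) isPreconnected_univ hop ⟨y, trivial, mem_connectedComponentIn hyO⟩
          ⟨w, trivial, hw.1⟩
        obtain ⟨z, -, hz⟩ := this
        exact ⟨z, hz⟩
      obtain ⟨w, hw⟩ := hne
      rw [frontier, hop.interior_eq] at hw
      have hwO : w ∉ O := by
        intro hwO
        apply hw.2
        have h1 : IsOpen (connectedComponentIn O w) := hO.connectedComponentIn
        obtain ⟨z, hz1, hz2⟩ := mem_closure_iff.1 hw.1 _ h1 (mem_connectedComponentIn hwO)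
        rw [connectedComponentIn_eq hz2, ← connectedComponentIn_eq hz1]
        exact mem_connectedComponentIn hwO
      have h1 : IsPreconnected (insert w (connectedComponentIn O y)) :=
        isPreconnected_connectedComponentIn.subset_closure (Set.subset_insert _ _)
          (Set.insert_subset hw.1 subset_closure)
      have h2 := IsPreconnected.union w (Set.mem_insert _ _) hwO h1 hc.isPreconnected
      have h3 : insert w (connectedComponentIn O y) ∪ Oᶜ = connectedComponentIn O y ∪ Oᶜ := by
        rw [Set.insert_union, Set.insert_eq_of_mem]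
        exact Or.inr hwO
      rwa [h3] at h2
  · exact ⟨Oᶜ, h0, hp, hyO, hc.isPreconnected⟩

/-- the component of `x` in the intersection of two windows is a window -/
theorem Win.inter {V U : Set ℂ} (hV : Win V) (hU : Win U) {x : ℂ} (hxV : x ∈ V) (hxU : x ∈ U) :
    Win (connectedComponentIn (V ∩ U) x) := by
  apply comp_compl (hV.op.inter hU.op) (hV.bdd.subset Set.inter_subset_left) _ ⟨hxV, hxU⟩
  rw [Set.compl_inter]
  have h1 : (Vᶜ ∩ Uᶜ).Nonempty := by
    rw [← Set.compl_union]
    by_contra hne
    rw [Set.not_nonempty_iff_eq_empty, Set.compl_empty_iff] at hne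
    have h2 := hV.bdd.union hU.bdd
    rw [hne] at h2
    exact NoncompactSpace.noncompact_univ (X := ℂ) (isCompact_of_isClosed_isBounded isClosed_univ h2)
  exact hV.com.union h1 hU.com

end Pool.Agent.H47.TH
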